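import Pool.Agent.W932.RO.Defs2

/-!
# The big classes grow with the number of blocks
-/

set_option autoImplicit false

namespace Pool.Agent.W597.RO

open Pool.Agent.NPC Pool.Agent.W932.RO Pool.Agent.W911.AL
open Pool.Agent.H620R2.Gauge (Oracle IsFP Alg)

/-- the first `t` of `t + 1` blocks -/
def cut (t : ℕ) (u : List Bool) : List Bool := u.take (t * (u.length / (t + 1)))

/-- the next action of the new machine -/
def nD (t : ℕ) (D : List Bool → List Bool) (z : List Bool) : List Bool :=
  D (pairBits (pairBits (unpair (unpair z).1).1 (cut t (unpair (unpair z).1).2)) (unpair z).2)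

lemma nD_apply (t : ℕ) (D : List Bool → List Bool) (T u a : List Bool) :
    nD t D (pairBits (pairBits T u) a) = D (pairBits (pairBits T (cut t u)) a) := by
  unfold nD
  rw [unpair_pairBits]
  simp only
  rw [unpair_pairBits]

lemma poly_cut (t : ℕ) : Poly (cut t) := by
  have h1 : Poly (fun u : List Bool => t * (u.length / (t + 1))) :=
    Poly.mul (NPC.Poly.const t) (Poly.div (Poly.length Poly.id) (NPC.Poly.const (t + 1)))
  have h2 : UPoly (fun u : List Bool => t * (u.length / (t + 1))) := by
    refine UPoly.of_le h1 (UPoly.length Poly.id) fun u => ?_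
    have h3 := Nat.div_mul_le_self u.length (t + 1)
    have h4 : t * (u.length / (t + 1)) ≤ u.length / (t + 1) * (t + 1) := by
      rw [Nat.mul_comm (u.length / (t + 1))]
      exact Nat.mul_le_mul_right _ (Nat.le_succ t)
    exact h4.trans h3
  exact Pool.Agent.H620R2.Gauge.R1.poly_take Poly.id h2

lemma poly_nD (t : ℕ) {D : List Bool → List Bool} (hD : PolyTime D) : PolyTime (nD t D) := by
  apply Pool.Agent.H622R2.polyTime_of_poly_list
  have h0 := Pool.Agent.H622R2.poly_of_polyTime hD
  have h1 : Poly (fun z : List Bool => (unpair z).1) := Poly.fst poly_unpair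
  have h2 : Poly (fun z : List Bool => (unpair z).2) := Poly.snd poly_unpair
  have h3 : Poly (fun z : List Bool => (unpair (unpair z).1).1) := h1.comp h1
  have h4 : Poly (fun z : List Bool => (unpair (unpair z).1).2) := h2.comp h1
  have h5 : Poly (fun z : List Bool => cut t (unpair (unpair z).1).2) := (poly_cut t).comp h4
  exact h0.comp (Pool.Agent.H622R2.poly_pairBits (Pool.Agent.H622R2.poly_pairBits h3 h5) h2)

/-- the new machine -/
def nM (t : ℕ) (M : Alg) : Alg where
  D := nD t M.D
  poly := poly_nD t M.poly
  p := M.p

lemma run_nM (t : ℕ) (M : Alg) (A : Oracle) (T u : List Bool) (n : ℕ) :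
    ∀ a, (nM t M).run A (pairBits T u) n a = M.run A (pairBits T (cut t u)) n a := by
  induction n with
  | zero => intro a; rfl
  | succ n ih =>
    intro a
    have h : (nM t M).D (pairBits (pairBits T u) a) = M.D (pairBits (pairBits T (cut t u)) a) :=
      nD_apply t M.D T u a
    unfold Alg.run
    rw [h]
    rcases M.D (pairBits (pairBits T (cut t u)) a) with _ | ⟨b, q⟩
    · rfl
    · cases b
      · exact ih _
      · rfl

/-- a dummy last block -/
lemma alt_dummy (m L : ℕ) (R : List Bool → Prop) (j : ℕ) : ∀ (b : Bool) (u : List Bool),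
    u.length + j * m = L → (Alt m (fun v => R (v.take L)) (j + 1) b u ↔ Alt m R j b u) := by
  induction j with
  | zero =>
    intro b u hu
    have h1 : ∀ w : List Bool, (u ++ w).take L = u := by
      intro w
      have : L = u.length := by omega
      rw [this, List.take_left]
    cases b with
    | true =>
      simp only [Alt]
      constructor
      · rintro ⟨w, -, h⟩
        rw [h1] at h
        exact h
      · intro h
        refine ⟨List.replicate m false, by simp, ?_⟩
        rw [h1]
        exact h
    | false =>
      simp only [Alt]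
      constructor
      · intro h
        have := h (List.replicate m false) (by simp)
        rw [h1] at this
        exact this
      · intro h w _
        rw [h1]
        exact h
  | succ j ih =>
    intro b u hu
    have h1 : ∀ (b : Bool) (w : List Bool), w.length = m →
        (Alt m (fun v => R (v.take L)) (j + 1) b (u ++ w) ↔ Alt m R j b (u ++ w)) := by
      intro b w hw
      refine ih b (u ++ w) ?_
      rw [List.length_append, hw]
      rw [Nat.succ_mul] at hu
      omega
    cases b with
    | true =>
      rw [show j + 1 + 1 = (j + 1) + 1 from rfl]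
      simp only [Alt] at h1 ⊢
      exact exists_congr fun w => and_congr_right fun hw => h1 false w hw
    | false =>
      rw [show j + 1 + 1 = (j + 1) + 1 from rfl]
      simp only [Alt] at h1 ⊢
      exact forall_congr' fun w => forall_congr' fun hw => h1 true w hw

theorem main : StmMono := by
  intro A t κ Q ⟨P, M, α, h, hP, hQ⟩
  refine ⟨P, nM t M, α, h, hP, fun x => ?_⟩
  rw [hQ x]
  obtain ⟨m, hm⟩ : ∃ m, m = h (κ x) * lg x := ⟨_, rfl⟩
  rw [← hm]
  rw [← alt_dummy m (t * m) (fun u => M.run A (pairBits (P (pairBits x (α (κ x)))) u) (m + 1) [] =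
    some [true]) t true [] (by simp)]
  apply Alt_congr
  intro v hv
  have hv' : v.length = (t + 1) * m := by simpa using hv
  have h1 : cut t v = v.take (t * m) := by
    unfold cut
    rw [hv', Nat.mul_div_cancel_left m (Nat.succ_pos t)]
  rw [run_nM, h1]

end Pool.Agent.W597.RO
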